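import Mathlib
import Pool.Agent.X215.Ent.Main

/-!
Under the continuum hypothesis there is an entangled set of reals which is a homogeneous space.
-/

namespace Pool.Agent.Results.MP_919a9a_lc.HomogeneousEntangled

open Set Cardinal

/-- `E` is `(κ, k)`-entangled. -/
def IsEntangledK (κ : Cardinal.{0}) (k : ℕ) (E : Set ℝ) : Prop :=
  κ ≤ #E ∧ ∀ F : Set (Fin k → ℝ), #F = κ →
    (∀ a ∈ F, (∀ i, a i ∈ E) ∧ ∀ i j, i ≠ j → a i ≠ a j) →
    (∀ a ∈ F, ∀ b ∈ F, a ≠ b → ∀ i j, a i ≠ b j) →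
    ∀ t : Fin k → Bool, ∃ a ∈ F, ∃ b ∈ F, a ≠ b ∧ ∀ i, (a i < b i ↔ t i = false)

/-- `E` is entangled: `(ℵ₁, k)`-entangled for all `k ≥ 1`. -/
def IsEntangled (E : Set ℝ) : Prop := ∀ k : ℕ, 1 ≤ k → IsEntangledK ℵ₁ k E

/-- A homogeneous space: for all points `x` and `y` some autohomeomorphism sends `x` to `y`. -/
def IsHomogeneous (X : Type) [TopologicalSpace X] : Prop := ∀ x y : X, ∃ h : X ≃ₜ X, h x = y

open Pool.Agent.X215.Ent Pool.Agent.X215.RelCof in
/-- Under the continuum hypothesis there is an entangled set of reals which, with its subspace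
topology, is a homogeneous space. -/
theorem result (CH : (𝔠 : Cardinal.{0}) = ℵ₁) : ∃ E : Set ℝ, IsEntangled E ∧ IsHomogeneous E := by
  classical
  -- an enumeration of the sets of conditions
  obtain ⟨e, he⟩ : ∃ e : Ω → Set Cnd, Function.Surjective e := by
    have h1 : #(Set Cnd) ≤ #Ω := by
      rw [mk_Ω, ← CH, mk_set]
      have h2 : #Cnd ≤ ℵ₀ := mk_le_aleph0
      calc (2 : Cardinal) ^ #Cnd ≤ 2 ^ ℵ₀ := power_le_power_left two_ne_zero h2
        _ = 𝔠 := two_power_aleph0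
    obtain ⟨g⟩ := h1
    exact ⟨Function.invFun g, Function.invFun_surjective g.injective⟩
  let G : AddSubgroup X2 := (Submodule.span Z (Set.range (xx e))).toAddSubgroup
  have hG : ∀ v : X2, v ∈ G → ∃ F : Finset Ω, v = vv e F := by
    intro v hv
    have hv' : v ∈ Submodule.span Z (Set.range (xx e)) := hv
    obtain ⟨c, rfl⟩ := Finsupp.mem_span_range_iff_exists_finsupp.1 hv'
    refine ⟨c.support, ?_⟩
    apply Finset.sum_congr rfl
    intro α hα
    have h1 : ∀ z : Z, z ≠ 0 → z = 1 := by decide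
    show c α • xx e α = xx e α
    rw [h1 (c α) (Finsupp.mem_support_iff.1 hα), one_smul]
  have hxG : ∀ α, xx e α ∈ G := fun α =>
    Submodule.subset_span (Set.mem_range_self α)
  refine ⟨phi '' (G : Set X2), fun k hk => ⟨?_, ?_⟩, ?_⟩
  · -- the cardinality
    rw [mk_image_eq isEmbedding_phi.injective, ← mk_Ω]
    exact mk_le_of_injective (f := fun α => (⟨xx e α, hxG α⟩ : (G : Set X2)))
      (fun α β h => xx_injective e (congrArg Subtype.val h))
  · intro F hF hFE hFd t
    have hch : ∀ a : F, ∀ i : Fin k, ∃ s : Finset Ω, (a : Fin k → ℝ) i = phi (vv e s) := by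
      intro a i
      obtain ⟨v, hv, hva⟩ := (hFE a a.2).1 i
      obtain ⟨s, rfl⟩ := hG v hv
      exact ⟨s, hva.symm⟩
    choose c hc using hch
    have hJ : ¬ (Set.univ : Set F).Countable := by
      rw [← le_aleph0_iff_set_countable, mk_univ, hF]
      exact not_le.2 aleph0_lt_aleph_one
    obtain ⟨a, -, b, -, hab, h⟩ := entangled_core e he hJ (by omega : 0 < k) c
      (fun a _ i j hij heq => (hFE a a.2).2 i j hij (by rw [hc, hc, heq]))
      (fun a _ b _ hab i heq => hFd a a.2 b b.2 (fun h => hab (Subtype.ext h)) i i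
        (by rw [hc, hc, heq])) t
    refine ⟨a, a.2, b, b.2, fun h' => hab (Subtype.ext h'), fun i => ?_⟩
    rw [hc, hc]
    exact h i
  · intro x y
    let Ψ : (G : Set X2) ≃ₜ (phi '' (G : Set X2)) := isEmbedding_phi.homeomorphImage _
    let Ψ' : G ≃ₜ (phi '' (G : Set X2)) := Ψ
    let T : G ≃ₜ G := Homeomorph.addLeft (Ψ'.symm y - Ψ'.symm x)
    refine ⟨(Ψ'.symm.trans T).trans Ψ', ?_⟩
    show Ψ' ((Ψ'.symm y - Ψ'.symm x) + Ψ'.symm x) = y
    rw [sub_add_cancel, Homeomorph.apply_symm_apply]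

end Pool.Agent.Results.MP_919a9a_lc.HomogeneousEntangled
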